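import Mathlib
import Pool.Agent.Results.MP_e1341d_pr.LogLawDisproof
import Pool.Agent.Y56.WP.Crit

set_option autoImplicit false
open MeasureTheory ProbabilityTheory
open scoped ENNReal NNReal BigOperators

namespace Pool.Agent.Results.MP_e1341d_pr.ScaleCriterion

open Pool.Agent.Results.MP_e1341d_pr.LogLawDisproof Pool.Agent.Y56.WP

/-- the general criterion -/
theorem crit (m : PMF ℕ) (H : ℝ≥0∞) (hH : H ≠ ⊤)
    (h : ∀ r : ℕ, 1 ≤ r → ∑' n : ℕ, (if r ^ 2 ≤ n then
      m n * ENNReal.ofReal ((n : ℝ) / (1 + Real.log ((n : ℝ) / (r : ℝ) ^ 2))) else 0) ≤ H) :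
    0 < vc m := by
  obtain ⟨H', HB⟩ := BS2_crit (fun n => (m n).toReal) (fun _ => ENNReal.toReal_nonneg) H.toReal
    ENNReal.toReal_nonneg (by
      intro r hr
      rw [ENNReal.ofReal_toReal hH]
      refine le_trans (le_of_eq ?_) (h r hr)
      unfold TT
      refine tsum_congr fun n => ?_
      split_ifs
      · rw [ENNReal.ofReal_mul ENNReal.toReal_nonneg, ENNReal.ofReal_toReal (PMF.apply_ne_top m n)]
        rfl
      · rfl)
  exact vc_pos m H' HB

/-- laws with a monotone majorant -/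
theorem mono (m : PMF ℕ) (g : ℕ → ℝ) (hg : AntitoneOn g (Set.Ici 1))
    (hg0 : ∀ n : ℕ, 1 ≤ n → 0 ≤ g n)
    (hmg : ∀ n : ℕ, 1 ≤ n → (m n).toReal ≤ g n / (n : ℝ) ^ 2)
    (hs : Summable fun n : ℕ => g n / ((n : ℝ) * (1 + Real.log n))) : 0 < vc m := by
  obtain ⟨H, hH, hT⟩ := TT_mono (fun n => (m n).toReal) g
    (fun a b ha hab => hg (Set.mem_Ici.mpr ha) (Set.mem_Ici.mpr (ha.trans hab)) hab) hg0 hmg hs
  obtain ⟨H', HB⟩ := BS2_crit (fun n => (m n).toReal) (fun _ => ENNReal.toReal_nonneg) H hH hT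
  exact vc_pos m H' HB

/-- the weights -/
noncomputable def ws (s : ℝ) (n : ℕ) : ℝ := 1 / ((n : ℝ) ^ 2 * (1 + Real.log n) ^ s)

theorem one_le (n : ℕ) : 1 ≤ 1 + Real.log n := by
  have : 0 ≤ Real.log n := Real.log_natCast_nonneg n
  linarith

theorem ws_nonneg (s : ℝ) (n : ℕ) : 0 ≤ ws s n := by
  unfold ws
  have := one_le n
  positivity

theorem ws_summable (s : ℝ) (hs : 0 < s) : Summable (ws s) := by
  refine Summable.of_nonneg_of_le (ws_nonneg s) (fun n => ?_)
    (Real.summable_one_div_nat_pow.mpr (by norm_num : 1 < 2))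
  unfold ws
  rcases Nat.eq_zero_or_pos n with h0 | h0
  · subst h0; simp
  · have hn : (0 : ℝ) < n := by exact_mod_cast h0
    have h1 : 1 ≤ (1 + Real.log n) ^ s := Real.one_le_rpow (one_le n) hs.le
    refine one_div_le_one_div_of_le (by positivity) ?_
    have : (0 : ℝ) < (n : ℝ) ^ 2 := by positivity
    nlinarith

/-- `∑ 1 / (n (1 + log n) ^ (1 + s))` converges for `s > 0` -/
theorem sum_conv (s : ℝ) (hs : 0 < s) :
    Summable fun n : ℕ => (1 / (1 + Real.log n) ^ s) / ((n : ℝ) * (1 + Real.log n)) := by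
  have h0 : ∀ n : ℕ, (0 : ℝ) ≤ (1 / (1 + Real.log n) ^ s) / ((n : ℝ) * (1 + Real.log n)) := by
    intro n
    have := one_le n
    positivity
  rw [← summable_condensed_iff_of_nonneg h0]
  · have hsum : Summable fun k : ℕ => (1 / (Real.log 2) ^ (1 + s)) * (1 / ((k + 1 : ℕ) : ℝ) ^ (1 + s)) := by
      refine Summable.mul_left _ ?_
      have := (Real.summable_one_div_nat_rpow (p := 1 + s)).mpr (by linarith)
      exact (summable_nat_add_iff 1).mpr this
    refine Summable.of_nonneg_of_le (fun k => mul_nonneg (by positivity) (h0 _)) (fun k => ?_) hsum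
    have hl2 : 0 < Real.log 2 := Real.log_pos (by norm_num)
    have hl2' : Real.log 2 ≤ 1 := by
      have := Real.log_two_lt_d9
      linarith
    push_cast
    rw [Real.log_pow]
    have hk : (0 : ℝ) ≤ k := Nat.cast_nonneg k
    have hA : 0 < 1 + (k : ℝ) * Real.log 2 := by positivity
    have h3 : (2 : ℝ) ^ k * ((1 / (1 + (k : ℝ) * Real.log 2) ^ s) /
        ((2 : ℝ) ^ k * (1 + (k : ℝ) * Real.log 2))) = 1 / (1 + (k : ℝ) * Real.log 2) ^ (1 + s) := by
      rw [Real.rpow_add hA, Real.rpow_one]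
      have : (0 : ℝ) < (1 + (k : ℝ) * Real.log 2) ^ s := Real.rpow_pos_of_pos hA s
      field_simp
    rw [h3, one_div_mul_one_div, ← Real.mul_rpow hl2.le (by positivity)]
    apply one_div_le_one_div_of_le (by positivity)
    apply Real.rpow_le_rpow (by positivity) _ (by linarith)
    nlinarith
  · intro a b ha hab
    have ha0 : (0 : ℝ) < a := by exact_mod_cast ha
    have hab' : (a : ℝ) ≤ b := by exact_mod_cast hab
    have hla := one_le a
    have hl : Real.log a ≤ Real.log b := Real.log_le_log ha0 hab'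
    have h1 : (1 + Real.log a) ^ s ≤ (1 + Real.log b) ^ s :=
      Real.rpow_le_rpow (by linarith) (by linarith) hs.le
    have h2 : (0 : ℝ) < (1 + Real.log a) ^ s := Real.rpow_pos_of_pos (by linarith) s
    gcongr

/-- **Positivity of the worm percolation threshold of the square lattice.**

(A) (criterion) If the sums `∑_{n ≥ r²} m(n) n / (1 + log (n / r²))`, `r = 1, 2, 3, …`, are bounded,
then `v_c(m) > 0`.

(B) (regular laws) If `m(n) ≤ g(n) / n²` for `n ≥ 1` with a nonincreasing `g ≥ 0` such that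
`∑ g(n) / (n (1 + log n)) < ∞`, then `v_c(m) > 0`. In particular this holds for every law `m` with
`n² m(n)` nonincreasing and `E [L / (1 + log L)] < ∞`.

(C) (full negative answer to Q1, all logarithmic powers) For every `0 < s ≤ 1` the law
`m(n) = c / (n² (1 + log n)^s)` on the positive integers satisfies
`E [L / (1 + log L)^(1 - s)] = ∞`, hence `E [L] = ∞`, and `v_c(m) > 0`. -/
theorem result :
    (∀ (m : PMF ℕ) (H : ℝ≥0∞), H ≠ ⊤ →
      (∀ r : ℕ, 1 ≤ r → ∑' n : ℕ, (if r ^ 2 ≤ n then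
        m n * ENNReal.ofReal ((n : ℝ) / (1 + Real.log ((n : ℝ) / (r : ℝ) ^ 2))) else 0) ≤ H) →
      0 < vc m) ∧
    (∀ (m : PMF ℕ) (g : ℕ → ℝ), AntitoneOn g (Set.Ici 1) → (∀ n : ℕ, 1 ≤ n → 0 ≤ g n) →
      (∀ n : ℕ, 1 ≤ n → (m n).toReal ≤ g n / (n : ℝ) ^ 2) →
      Summable (fun n : ℕ => g n / ((n : ℝ) * (1 + Real.log n))) → 0 < vc m) ∧
    (∀ s : ℝ, 0 < s → s ≤ 1 → ∃ m : PMF ℕ, m 0 = 0 ∧
      (∃ c : ℝ, 0 < c ∧ ∀ n : ℕ, 1 ≤ n →
        (m n).toReal = c / ((n : ℝ) ^ 2 * (1 + Real.log n) ^ s)) ∧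
      ∑' n : ℕ, ENNReal.ofReal ((n : ℝ) / (1 + Real.log n) ^ (1 - s)) * m n = ⊤ ∧
      ∑' n : ℕ, (n : ℝ≥0∞) * m n = ⊤ ∧
      0 < vc m) := by
  refine ⟨crit, mono, ?_⟩
  intro s hs hs1
  have hZ0 : ∑' n, ENNReal.ofReal (ws s n) ≠ 0 := by
    intro h
    rw [ENNReal.tsum_eq_zero] at h
    have := h 1
    simp [ws] at this
  have hZ1 : ∑' n, ENNReal.ofReal (ws s n) ≠ ⊤ := (ws_summable s hs).tsum_ofReal_ne_top
  set Z := ∑' n, ENNReal.ofReal (ws s n) with hZ
  have hc0 : 0 < (Z⁻¹).toReal := ENNReal.toReal_pos (ENNReal.inv_ne_zero.mpr hZ1)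
    (ENNReal.inv_ne_top.mpr hZ0)
  set m := PMF.normalize (fun n => ENNReal.ofReal (ws s n)) hZ0 hZ1 with hm
  have hval : ∀ n, m n = ENNReal.ofReal (ws s n) * Z⁻¹ := fun n => PMF.normalize_apply _ _ _
  have hvalr : ∀ n, (m n).toReal = (Z⁻¹).toReal / ((n : ℝ) ^ 2 * (1 + Real.log n) ^ s) := by
    intro n
    rw [hval, ENNReal.toReal_mul, ENNReal.toReal_ofReal (ws_nonneg s n)]
    unfold ws
    ring
  have hdiv : ∑' n : ℕ, ENNReal.ofReal ((n : ℝ) / (1 + Real.log n) ^ (1 - s)) * m n = ⊤ := by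
    have h1 : ∀ n : ℕ, ENNReal.ofReal ((n : ℝ) / (1 + Real.log n) ^ (1 - s)) * m n
        = ENNReal.ofReal (1 / ((n : ℝ) * (1 + Real.log n))) * Z⁻¹ := by
      intro n
      have hn1 := one_le n
      rw [hval, ← mul_assoc, ← ENNReal.ofReal_mul (by positivity)]
      congr 2
      unfold ws
      rcases Nat.eq_zero_or_pos n with h0 | h0
      · subst h0; simp
      · have hn : (0 : ℝ) < n := by exact_mod_cast h0
        have hA : 0 < 1 + Real.log n := by linarith
        have h2 : (1 + Real.log n) ^ (1 - s) * (1 + Real.log n) ^ s = 1 + Real.log n := by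
          rw [← Real.rpow_add hA, sub_add_cancel, Real.rpow_one]
        rw [div_mul_div_comm, mul_one]
        rw [show (1 + Real.log n) ^ (1 - s) * ((n : ℝ) ^ 2 * (1 + Real.log n) ^ s) =
          (n : ℝ) ^ 2 * ((1 + Real.log n) ^ (1 - s) * (1 + Real.log n) ^ s) by ring, h2]
        field_simp
    simp_rw [h1]
    rw [ENNReal.tsum_mul_right]
    have h2 : ∑' n : ℕ, ENNReal.ofReal (1 / ((n : ℝ) * (1 + Real.log n))) = ⊤ := by
      by_contra hne
      refine mean_not_summable ?_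
      have h3 := ENNReal.summable_toReal hne
      refine h3.congr fun n => ?_
      rw [ENNReal.toReal_ofReal]
      have hl := one_le n
      positivity
    rw [h2, ENNReal.top_mul (ENNReal.inv_ne_zero.mpr hZ1)]
  refine ⟨m, ?_, ⟨(Z⁻¹).toReal, hc0, fun n _ => hvalr n⟩, hdiv, ?_, ?_⟩
  · rw [hval]
    simp [ws]
  · rw [eq_top_iff, ← hdiv]
    refine ENNReal.tsum_le_tsum fun n => ?_
    gcongr
    rw [← ENNReal.ofReal_natCast]
    refine ENNReal.ofReal_le_ofReal ?_
    have h1 : 1 ≤ (1 + Real.log n) ^ (1 - s) := Real.one_le_rpow (one_le n) (by linarith)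
    exact div_le_self (Nat.cast_nonneg n) h1
  · refine mono m (fun n => (Z⁻¹).toReal / (1 + Real.log n) ^ s) ?_ ?_ ?_ ?_
    · intro a ha b hb hab
      have ha0 : (0 : ℝ) < a := by
        have : 1 ≤ a := ha
        exact_mod_cast this
      have hab' : (a : ℝ) ≤ b := by exact_mod_cast hab
      have hla := one_le a
      have hl : Real.log a ≤ Real.log b := Real.log_le_log ha0 hab'
      have h1 : (1 + Real.log a) ^ s ≤ (1 + Real.log b) ^ s :=
        Real.rpow_le_rpow (by linarith) (by linarith) hs.le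
      have h2 : (0 : ℝ) < (1 + Real.log a) ^ s := Real.rpow_pos_of_pos (by linarith) s
      exact div_le_div_of_nonneg_left hc0.le h2 h1
    · intro n _
      have := one_le n
      positivity
    · intro n _
      rw [hvalr n]
      refine le_of_eq ?_
      rw [div_div, mul_comm]
    · have := (sum_conv s hs).mul_left (Z⁻¹).toReal
      refine this.congr fun n => ?_
      ring

end Pool.Agent.Results.MP_e1341d_pr.ScaleCriterion
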